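import Pool.Agent.H21.HS.Few
import Pool.Graph.R_pool_sql_team_seeded_3997aac3.Q43.HN.Corank

/-!
# From the relations between the slopes to the relations between the Frobenius eigenvalues
-/

set_option autoImplicit false
set_option linter.unusedSectionVars false

namespace Pool.Agent.H21.HS

open NumberField Module Pool.Agent.H925R2 Pool.Agent.H485R3 Pool.Agent.H204R3.CM
  Pool.Agent.H868R3.TwoOdd Pool.Agent.H194R3.CM Pool.Agent.H194R3.Tate Pool.Agent.Helper33Dom
  Pool.Agent.H21.TC Pool.Agent.H21.NP Pool.Agent.H21.NQ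
  Pool.Agent.W495.TA Pool.Agent.TH117.BL Pool.Agent.Q43.HN

section

variable {F : Type} [Field F] [NumberField F] [IsCMField F]
  {L : Type*} [Field L] [NumberField L] [IsGalois ℚ L] (p : ℕ) [Fact p.Prime]

/-- Coincidences of the slopes. -/
theorem pow_eq_of_sameClass (e : L →ₐ[ℚ] PadicAlgCl p) (a : ℕ) (π : F)
    (hW : IsWeilNumber (p ^ a) π) (x y : F →+* L)
    (h : SameClass (uvec p e a π) x y) : ∃ s, 0 < s ∧ (x π) ^ s = (y π) ^ s := by
  classical
  have hweil : ∀ φ : F →+* ℂ, ‖φ π‖ ^ 2 = (((p : ℚ) ^ a : ℚ) : ℝ) := by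
    intro φ
    rw [hW.2 φ]
    push_cast
    rfl
  have hp : p.Prime := Fact.out
  have hq : (0 : ℚ) < (p : ℚ) ^ a := pow_pos (by exact_mod_cast hp.pos) _
  have hub := uvec_cbar (L := L) p e a π hweil
  have hf : ∀ g : L ≃ₐ[ℚ] L, ∑ z : F →+* L,
      (((if z = x then 1 else 0) + (if z = cbar y then 1 else 0) : ℕ) : ℝ) *
      uvec p e a π (g • z) = 0 := by
    intro g
    have h1 : ∀ z : F →+* L, (((if z = x then 1 else 0) + (if z = cbar y then 1 else 0) : ℕ) : ℝ) *
        uvec p e a π (g • z) = (if z = x then uvec p e a π (g • z) else 0) +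
          (if z = cbar y then uvec p e a π (g • z) else 0) := by
      intro z
      push_cast
      split_ifs <;> ring
    rw [Finset.sum_congr rfl fun z _ => h1 z, Finset.sum_add_distrib, Finset.sum_ite_eq',
      Finset.sum_ite_eq', if_pos (Finset.mem_univ _), if_pos (Finset.mem_univ _), h g,
      smul_cbar', hub]
    ring
  obtain ⟨t, ht, hrel⟩ := prod_pow_eq p e a π hW.1 hweil _ hf
  have h2 : ∏ z : F →+* L, z π ^ ((if z = x then 1 else 0) + (if z = cbar y then 1 else 0)) =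
      x π * cbar y π := by
    have h3 : ∀ z : F →+* L, z π ^ ((if z = x then 1 else 0) + (if z = cbar y then 1 else 0)) =
        (if z = x then z π else 1) * (if z = cbar y then z π else 1) := by
      intro z
      rw [pow_add]
      split_ifs <;> simp
    rw [Finset.prod_congr rfl fun z _ => h3 z, Finset.prod_mul_distrib, Finset.prod_ite_eq',
      Finset.prod_ite_eq', if_pos (Finset.mem_univ _), if_pos (Finset.mem_univ _)]
  have h3 : ∑ z : F →+* L, ((if z = x then 1 else 0) + (if z = cbar y then 1 else 0)) = 2 := by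
    rw [Finset.sum_add_distrib, Finset.sum_ite_eq', Finset.sum_ite_eq',
      if_pos (Finset.mem_univ _), if_pos (Finset.mem_univ _)]
  rw [h2, h3] at hrel
  have hπ0 : π ≠ 0 := weil_ne hq hweil
  have hy0 : y π ≠ 0 := (map_ne_zero y).2 hπ0
  have hp0 : (p : L) ≠ 0 := by exact_mod_cast hp.ne_zero
  have h4 : cbar y π = (p : L) ^ a / y π := by
    rw [weil_cbar hq hweil]
    push_cast
    rfl
  rw [h4] at hrel
  refine ⟨2 * t, by omega, ?_⟩
  have h6 : (x π * ((p : L) ^ a / y π)) ^ (2 * t) * (y π) ^ (2 * t) =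
      ((p : L) ^ a) ^ (2 * t) * (x π) ^ (2 * t) := by
    rw [← mul_pow, ← mul_pow]
    congr 1
    field_simp
  rw [hrel] at h6
  exact (mul_left_cancel₀ (pow_ne_zero _ (pow_ne_zero _ hp0)) h6).symm

/-- The odd part of a relation. -/
theorem mem_relS_of_sum {e : L →ₐ[ℚ] PadicAlgCl p} {a : ℕ} {π : F} {w : (F →+* L) → ℚ}
    (hw : ∀ x, uvec p e a π x = (w x : ℝ) * (a * Real.log p)) (hk : (a : ℝ) * Real.log p ≠ 0)
    (hwodd : ∀ x : F →+* L, w (cbar x) = - w x) (f : (F →+* L) → ℕ)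
    (hf : ∀ g : L ≃ₐ[ℚ] L, ∑ x, (f x : ℝ) * uvec p e a π (g • x) = 0) :
    (fun x => (f x : ℚ) - f (cbar x)) ∈ RelS (MulAction.toPermHom (L ≃ₐ[ℚ] L) (F →+* L)).range
      (cbar : (F →+* L) → (F →+* L)) w := by
  have h1 : ∀ g : L ≃ₐ[ℚ] L, ∑ x, (f x : ℚ) * w (g • x) = 0 := by
    intro g
    have h2 : ((∑ x, (f x : ℚ) * w (g • x) : ℚ) : ℝ) * (a * Real.log p) = 0 := by
      rw [← hf g]
      push_cast
      rw [Finset.sum_mul]
      refine Finset.sum_congr rfl fun x _ => ?_
      rw [hw]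
      ring
    exact_mod_cast (mul_eq_zero.1 h2).resolve_right hk
  refine ⟨fun x => ?_, ?_⟩
  · simp only [cbar_cbar]
    ring
  · rintro _ ⟨g, rfl⟩
    have h2 : ∑ x : F →+* L, (f (cbar x) : ℚ) * w (g • x) = 0 := by
      have h3 : ∑ x : F →+* L, (f (cbar x) : ℚ) * w (g • x) =
          - ∑ x : F →+* L, (f x : ℚ) * w (g • x) := by
        rw [← Finset.sum_neg_distrib]
        refine Finset.sum_nbij' cbar cbar (fun _ _ => Finset.mem_univ _)
          (fun _ _ => Finset.mem_univ _) (fun y _ => cbar_cbar y) (fun y _ => cbar_cbar y) ?_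
        intro z _
        rw [smul_cbar', hwodd]
        ring
      rw [h3, h1, neg_zero]
    change ∑ x : F →+* L, ((f x : ℚ) - f (cbar x)) * w (g • x) = 0
    have h3 : ∀ x : F →+* L, ((f x : ℚ) - f (cbar x)) * w (g • x) =
        (f x : ℚ) * w (g • x) - (f (cbar x) : ℚ) * w (g • x) := fun x => by ring
    rw [Finset.sum_congr rfl fun x _ => h3 x, Finset.sum_sub_distrib, h1, h2, sub_zero]

/-- Two relations between the conjugates of a Weil number. -/
theorem two_relations {L : Type} [Field L] [NumberField L] [IsGalois ℚ L] (a : ℕ) (ha : 0 < a) (π : F)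
    (hW : IsWeilNumber (p ^ a) π) (j : L →+* ℂ) (h : ∀ ψ : F →+* ℂ, ∃ φ : F →+* L, j.comp φ = ψ)
    (hsep : ∀ (x y : F →+* L) (t : ℕ), 0 < t → (x π) ^ t = (y π) ^ t → x = y) {g : ℕ}
    (s : Fin g → ℚ) (hs : HasSlopes p a π s) (hfew : FewRel fun j => 1 - 2 * s j)
    (f f' : (F →+* L) → ℕ) (t t' : ℕ) (ht : 0 < t) (ht' : 0 < t')
    (hf : (∏ x, x π ^ f x) ^ (2 * t) = ((p : L) ^ a) ^ ((∑ x, f x) * t))
    (hf' : (∏ x, x π ^ f' x) ^ (2 * t') = ((p : L) ^ a) ^ ((∑ x, f' x) * t')) :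
    ∃ m n : ℤ, (m ≠ 0 ∨ n ≠ 0) ∧
      ∀ x, m * ((f x : ℤ) - f (cbar x)) + n * ((f' x : ℤ) - f' (cbar x)) = 0 := by
  classical
  let e : L →ₐ[ℚ] PadicAlgCl p := IsAlgClosed.lift
  have hp : p.Prime := Fact.out
  have hp1 : (1 : ℝ) < p := by exact_mod_cast hp.one_lt
  have hlog : 0 < Real.log p := Real.log_pos hp1
  have ha' : (0 : ℝ) < a := by exact_mod_cast ha
  have hk : (a : ℝ) * Real.log p ≠ 0 := (mul_pos ha' hlog).ne'
  have hweil : ∀ φ : F →+* ℂ, ‖φ π‖ ^ 2 = (((p : ℚ) ^ a : ℚ) : ℝ) := by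
    intro φ
    rw [hW.2 φ]
    push_cast
    rfl
  obtain ⟨w, hw, hm, hcard⟩ := exists_weights p j h e a ha π s hs
  let X := F →+* L
  have hwodd : ∀ x : X, w (cbar x) = - w x := by
    intro x
    have h1 := uvec_cbar p e a π hweil x
    rw [hw, hw, ← neg_mul] at h1
    exact_mod_cast mul_right_cancel₀ hk h1
  let P : Subgroup (Equiv.Perm X) := (MulAction.toPermHom (L ≃ₐ[ℚ] L) X).range
  have hcomm : ∀ σ ∈ P, ∀ x : X, σ (cbar x) = cbar (σ x) := by
    rintro _ ⟨g, rfl⟩ x
    exact smul_cbar' g x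
  have htr : ∀ x y : X, ∃ σ ∈ P, σ x = y := by
    intro x y
    obtain ⟨g, rfl⟩ := MulAction.exists_smul_eq (L ≃ₐ[ℚ] L) x y
    exact ⟨_, ⟨g, rfl⟩, rfl⟩
  have hnc : ∀ x y : X, (∀ σ ∈ P, w (σ x) = w (σ y)) → x = y := by
    intro x y hxy
    obtain ⟨s', hs', h1⟩ := pow_eq_of_sameClass p e a π hW x y fun g => by
      rw [hw, hw]
      have h1 := hxy _ ⟨g, rfl⟩
      have h2 : w (g • x) = w (g • y) := h1
      rw [h2]
    exact hsep x y s' hs' h1
  let c : X → ℤ := fun x => (f x : ℤ) - f (cbar x)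
  let c' : X → ℤ := fun x => (f' x : ℤ) - f' (cbar x)
  have hc : (fun x => (c x : ℚ)) ∈ RelS P (cbar : X → X) w := by
    have h1 := mem_relS_of_sum p hw hk hwodd f fun g => sum_uvec_eq_zero p e a π hweil f t ht hf g
    have h2 : (fun x => (c x : ℚ)) = fun x => (f x : ℚ) - f (cbar x) := by
      funext x
      simp only [c]
      push_cast
      rfl
    rw [h2]
    exact h1
  have hc' : (fun x => (c' x : ℚ)) ∈ RelS P (cbar : X → X) w := by
    have h1 := mem_relS_of_sum p hw hk hwodd f' fun g =>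
      sum_uvec_eq_zero p e a π hweil f' t' ht' hf' g
    have h2 : (fun x => (c' x : ℚ)) = fun x => (f' x : ℚ) - f' (cbar x) := by
      funext x
      simp only [c']
      push_cast
      rfl
    rw [h2]
    exact h1
  by_cases h0 : ∀ x, c x = 0
  · exact ⟨1, 0, Or.inl one_ne_zero, fun x => by
      have h1 := h0 x
      simp only [c] at h1
      rw [h1]
      ring⟩
  · push Not at h0
    obtain ⟨x₀, hx₀⟩ := h0
    refine ⟨c' x₀, - c x₀, Or.inr (neg_ne_zero.2 hx₀), fun x => ?_⟩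
    have h1 : (fun x => ((c' x₀ : ℤ) : ℚ) * (c x : ℚ) + ((- c x₀ : ℤ) : ℚ) * (c' x : ℚ)) ∈
        RelS P (cbar : X → X) w :=
      Submodule.add_mem _ (Submodule.smul_mem _ ((c' x₀ : ℤ) : ℚ) hc)
        (Submodule.smul_mem _ ((- c x₀ : ℤ) : ℚ) hc')
    have h2 := hfew X P cbar w cbar_cbar cbar_ne hcomm htr hwodd hm hcard hnc _ h1 x₀ (by
      push_cast
      ring)
    have h3 := congrFun h2 x
    simp only [Pi.zero_apply] at h3
    have h4 : c' x₀ * c x + -c x₀ * c' x = 0 := by exact_mod_cast h3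
    exact h4

end

variable {p : ℕ} [Fact p.Prime] {ν : PadicAlgCl p ≃+* ℂ}

/-- The complex conjugation on the pairs of a factor and an embedding. -/
noncomputable def ebar (Z : RedAV p ν) (u : Emb Z) : Emb Z := ⟨u.1, cbar u.2⟩

theorem ebar_ebar (Z : RedAV p ν) (u : Emb Z) : ebar Z (ebar Z u) = u := by
  obtain ⟨i, φ⟩ := u
  change (⟨i, cbar (cbar φ)⟩ : Emb Z) = ⟨i, φ⟩
  rw [cbar_cbar]

theorem ebar_ne (Z : RedAV p ν) (u : Emb Z) : ebar Z u ≠ u := by
  obtain ⟨i, φ⟩ := u
  intro h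
  have h1 : (⟨i, cbar φ⟩ : Emb Z) = ⟨i, φ⟩ := h
  rw [Sigma.mk.injEq] at h1
  exact cbar_ne φ (eq_of_heq h1.2)

theorem eig_ebar (Z : RedAV p ν) (u : Emb Z) : eig Z u * eig Z (ebar Z u) = (p : ℂ) ^ Z.a := by
  have h1 : eig Z (ebar Z u) = starRingEnd ℂ (eig Z u) := by
    change u.2 (IsCMField.complexConj (Z.X.factor u.1).E (Z.π u.1)) = _
    exact IsCMField.complexEmbedding_complexConj (K := (Z.X.factor u.1).E) u.2 (Z.π u.1)
  rw [h1, Complex.mul_conj, Complex.normSq_eq_norm_sq]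
  have h3 : ‖eig Z u‖ ^ 2 = (p : ℝ) ^ Z.a := (Z.frob u.1).weil u.2
  rw [h3]
  push_cast
  rfl

open Classical in
/-- The relation between an eigenvalue and its conjugate. -/
theorem pair_mem_two (Z : RedAV p ν) (u : Emb Z) :
    (fun v : Emb Z => ((if v = u then 1 else 0) + (if v = ebar Z u then 1 else 0) : ℤ)) ∈
      twoGroup Z := by
  refine AddSubgroup.subset_closure ⟨fun v => (if v = u then 1 else 0) +
    (if v = ebar Z u then 1 else 0), ?_, ?_, fun v => ?_⟩
  · refine ⟨1, one_pos, ?_⟩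
    have h2 : ∏ w, eig Z w ^ ((if w = u then 1 else 0) + (if w = ebar Z u then 1 else 0)) =
        eig Z u * eig Z (ebar Z u) := by
      have h3 : ∀ w, eig Z w ^ ((if w = u then 1 else 0) + (if w = ebar Z u then 1 else 0)) =
          (if w = u then eig Z w else 1) * (if w = ebar Z u then eig Z w else 1) := by
        intro w
        rw [pow_add]
        split_ifs <;> simp
      rw [Finset.prod_congr rfl fun w _ => h3 w, Finset.prod_mul_distrib, Finset.prod_ite_eq',
        Finset.prod_ite_eq', if_pos (Finset.mem_univ _), if_pos (Finset.mem_univ _)]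
    have h3 : ∑ w, ((if w = u then 1 else 0) + (if w = ebar Z u then 1 else 0)) = 2 := by
      rw [Finset.sum_add_distrib, Finset.sum_ite_eq', Finset.sum_ite_eq',
        if_pos (Finset.mem_univ _), if_pos (Finset.mem_univ _)]
    rw [h2, h3, eig_ebar]
  · rw [Finset.sum_add_distrib, Finset.sum_ite_eq', Finset.sum_ite_eq',
      if_pos (Finset.mem_univ _), if_pos (Finset.mem_univ _)]
  · push_cast
    rfl

/-- Functions invariant under the complex conjugation. -/
theorem even_mem_two (Z : RedAV p ν) (f : Emb Z → ℤ) (hf : ∀ u, f (ebar Z u) = f u) :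
    f ∈ twoGroup Z := by
  classical
  obtain ⟨O, hO⟩ := exists_tr (ebar_ebar Z) (ebar_ne Z)
  have h1 : f = ∑ u ∈ O, f u • (fun v : Emb Z => ((if v = u then 1 else 0) +
      (if v = ebar Z u then 1 else 0) : ℤ)) := by
    funext v
    rw [Finset.sum_apply]
    have h2 : ∀ u, (f u • (fun v : Emb Z => ((if v = u then 1 else 0) +
        (if v = ebar Z u then 1 else 0) : ℤ))) v =
        (if v = u then f u else 0) + (if ebar Z v = u then f u else 0) := by
      intro u
      rw [Pi.smul_apply, smul_eq_mul, mul_add, mul_ite, mul_one, mul_zero, mul_ite, mul_one,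
        mul_zero]
      congr 1
      have h3 : v = ebar Z u ↔ ebar Z v = u := by
        constructor
        · rintro rfl
          exact ebar_ebar Z u
        · rintro rfl
          exact (ebar_ebar Z v).symm
      simp only [h3]
    rw [Finset.sum_congr rfl fun u _ => h2 u, Finset.sum_add_distrib, Finset.sum_ite_eq,
      Finset.sum_ite_eq]
    by_cases hv : v ∈ O
    · rw [if_pos hv, if_neg ((hO v).1 hv), add_zero]
    · have h3 : ebar Z v ∈ O := by
        rw [hO, ebar_ebar]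
        exact hv
      rw [if_neg hv, if_pos h3, zero_add, hf]
  rw [h1]
  exact AddSubgroup.sum_mem _ fun u _ => AddSubgroup.zsmul_mem _ (pair_mem_two Z u) _

/-- **Any two relations are dependent.** -/
theorem dependent_of_few {Z : RedAV p ν} (i : Z.X.I) (hi : ∀ k, k = i)
    (hcom : IsCommutative Z i) {g : ℕ} (s : Fin g → ℚ) (hs : HasSlopes p Z.a (Z.π i) s)
    (hfew : FewRel fun j => 1 - 2 * s j) (r : ℕ) : IsDependent Z r := by
  classical
  rintro n n' ⟨t, ht, hn⟩ ⟨t', ht', hn'⟩ _ _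
  obtain ⟨L, _, _, j, h⟩ := exists_galois (fun _ : Unit => (Z.X.factor i).E)
  replace h := h ()
  have hW : IsWeilNumber (p ^ Z.a) (Z.π i) := by
    refine ⟨(Z.frob i).integral, fun φ => ?_⟩
    have h1 := (Z.frob i).weil φ
    push_cast
    exact h1
  have hjinj : ∀ x y : (Z.X.factor i).E →+* L, j.comp x = j.comp y → x = y := by
    intro x y hxy
    exact RingHom.ext fun b => j.injective (RingHom.congr_fun hxy b)
  -- the embeddings
  have hbij : Function.Bijective (fun x : (Z.X.factor i).E →+* L => (⟨i, j.comp x⟩ : Emb Z)) := by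
    constructor
    · intro x y hxy
      have hxy' : (⟨i, j.comp x⟩ : Emb Z) = ⟨i, j.comp y⟩ := hxy
      rw [Sigma.mk.injEq] at hxy'
      exact hjinj x y (eq_of_heq hxy'.2)
    · rintro ⟨k, φ⟩
      obtain rfl := hi k
      obtain ⟨x, hx⟩ := h φ
      refine ⟨x, ?_⟩
      change (⟨k, j.comp x⟩ : Emb Z) = ⟨k, φ⟩
      rw [hx]
  let E : ((Z.X.factor i).E →+* L) ≃ Emb Z := Equiv.ofBijective _ hbij
  have hEbar : ∀ x, E (cbar x) = ebar Z (E x) := fun x => rfl
  have hrel : ∀ (n : Emb Z → ℕ) (t : ℕ), (∏ w, eig Z w ^ n w) ^ (2 * t) =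
      ((p : ℂ) ^ Z.a) ^ (t * ∑ w, n w) →
      (∏ x : (Z.X.factor i).E →+* L, x (Z.π i) ^ n (E x)) ^ (2 * t) =
        ((p : L) ^ Z.a) ^ ((∑ x, n (E x)) * t) := by
    intro n t h1
    apply j.injective
    rw [map_pow, map_prod, map_pow, map_pow, map_natCast]
    have h2 : ∏ x : (Z.X.factor i).E →+* L, j (x (Z.π i) ^ n (E x)) = ∏ u, eig Z u ^ n u := by
      rw [← Equiv.prod_comp E]
      refine Finset.prod_congr rfl fun x _ => ?_
      rw [map_pow]
      rfl
    have h3 : ∑ x : (Z.X.factor i).E →+* L, n (E x) = ∑ u, n u := Equiv.sum_comp E n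
    rw [h2, h3, h1, mul_comm t]
  obtain ⟨a, b, hab, hzero⟩ := two_relations p Z.a Z.pos (Z.π i) hW j h (fun x y t ht hxy => by
      refine hjinj x y (hcom _ _ t ht ?_)
      change (j (x (Z.π i))) ^ t = (j (y (Z.π i))) ^ t
      rw [← map_pow j, ← map_pow j, hxy]) s hs hfew (fun x => n (E x)) (fun x => n' (E x)) t t' ht ht'
      (hrel n t hn) (hrel n' t' hn')
  refine ⟨a, b, hab, even_mem_two Z _ fun u => ?_⟩
  obtain ⟨x, rfl⟩ := E.surjective u
  have h1 := hzero x
  simp only [hEbar] at h1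
  linarith

end Pool.Agent.H21.HS
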