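import Pool.Agent.H21.HS.Few

/-!
# One even difference
-/

set_option autoImplicit false
set_option linter.unusedSectionVars false

namespace Pool.Agent.H21.HS

open Module Pool.Agent.H21.TC Pool.Agent.H21.NP Pool.Agent.H21.NQ

section

variable {X : Type} [Fintype X] {P : Subgroup (Equiv.Perm X)} {bar : X → X}

/-- Descent for relations with a coefficient zero. -/
theorem descent0 (ℓ : ℕ) [hℓ : Fact ℓ.Prime] (w : X → ℤ) (x₀ : X)
    (hdiv : ∀ c : X → ℤ, (∀ x, c (bar x) = - c x) → (∀ σ ∈ P, ∑ x, c x * w (σ x) = 0) →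
      c x₀ = 0 → ∀ x, (ℓ : ℤ) ∣ c x) (c : X → ℤ)
    (hc : ∀ x, c (bar x) = - c x) (hrel : ∀ σ ∈ P, ∑ x, c x * w (σ x) = 0) (h0 : c x₀ = 0) :
    c = 0 := by
  classical
  by_contra hc0
  obtain ⟨c', hc'1, hc'2⟩ := Finset.extract_gcd c (s := Finset.univ) ⟨x₀, Finset.mem_univ x₀⟩
  set d := Finset.univ.gcd c with hd
  have hd0 : d ≠ 0 := by
    intro h
    apply hc0
    funext x
    rw [hc'1 x (Finset.mem_univ x), h, zero_mul]
    rfl
  have hc'odd : ∀ x, c' (bar x) = - c' x := by
    intro x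
    apply mul_left_cancel₀ hd0
    rw [← hc'1 _ (Finset.mem_univ _), hc, hc'1 x (Finset.mem_univ x)]
    ring
  have hc'rel : ∀ σ ∈ P, ∑ x, c' x * w (σ x) = 0 := by
    intro σ hσ
    apply mul_left_cancel₀ hd0
    rw [mul_zero, Finset.mul_sum, ← hrel σ hσ]
    refine Finset.sum_congr rfl fun x _ => ?_
    rw [hc'1 x (Finset.mem_univ x)]
    ring
  have hc'0 : c' x₀ = 0 := by
    apply mul_left_cancel₀ hd0
    rw [mul_zero, ← hc'1 _ (Finset.mem_univ _), h0]
  have h2 := Finset.dvd_gcd fun x (_ : x ∈ (Finset.univ : Finset X)) =>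
    hdiv c' hc'odd hc'rel hc'0 x
  rw [hc'2] at h2
  have h3 : (ℓ : ℤ) = 1 := by
    have h4 := Int.isUnit_iff.1 (isUnit_of_dvd_one h2)
    rcases h4 with h4 | h4
    · exact h4
    · omega
  have h4 : ℓ = 1 := by exact_mod_cast h3
  exact hℓ.out.one_lt.ne' h4

end

/-- One even difference. -/
theorem few_of_one_even {g : ℕ} (m : Fin g → ℚ) (t : ℚ) (ht : t ≠ 0)
    (n : Fin g → ℤ) (hm : ∀ j, m j = t * n j) (j₀ : Fin g) (h0 : Even (n j₀))
    (h1 : ∀ j, j ≠ j₀ → Odd (n j)) : FewRel m := by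
  classical
  intro X _ P bar w hbar hb hcomm htr hw hmul hcard _ c hc z₀ hz₀
  -- integral values
  have hint : ∀ x, ∃ z : ℤ, w x = t * z := by
    intro x
    have h1 : |w x| ∈ (Finset.univ : Finset X).val.map (fun x => |w x|) :=
      Multiset.mem_map_of_mem _ (Finset.mem_univ x)
    rw [hmul, Multiset.mem_nsmul, Multiset.mem_map] at h1
    obtain ⟨-, j, -, hj⟩ := h1
    rcases abs_eq_abs.1 hj with h2 | h2
    · exact ⟨n j, by rw [← h2, hm]⟩
    · exact ⟨- n j, by
        rw [hm] at h2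
        push_cast
        linarith⟩
  choose w' hw' using hint
  have hw'odd : ∀ x, w' (bar x) = - w' x := by
    intro x
    have h1 : t * (w' (bar x) : ℚ) = t * (-w' x : ℤ) := by
      rw [← hw', hw, hw']
      push_cast
      ring
    exact_mod_cast mul_left_cancel₀ ht h1
  obtain ⟨N, c', hN, hc'⟩ := clear_denom c
  have hN' : (N : ℚ) ≠ 0 := by exact_mod_cast hN
  obtain ⟨O, hO⟩ := exists_tr hbar hb
  obtain ⟨e, he⟩ := exists_enum hbar hw m hmul hO
  have hwe : ∀ j, w' (e j) = n j ∨ w' (e j) = - n j := by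
    intro j
    rcases he j with h | h
    · left
      rw [hw', hm] at h
      exact_mod_cast mul_left_cancel₀ ht h
    · right
      rw [hw', hm, ← mul_neg] at h
      have h4 := mul_left_cancel₀ ht h
      exact_mod_cast h4
  have hx0 : Even (w' (e j₀)) := by
    rcases hwe j₀ with h | h
    · rw [h]
      exact h0
    · rw [h]
      exact h0.neg
  have hx1 : ∀ y ∈ O, y ≠ e j₀ → Odd (w' y) := by
    intro y hy hne
    have h2 : e.symm ⟨y, hy⟩ ≠ j₀ := by
      intro h2
      apply hne
      rw [← h2, Equiv.apply_symm_apply]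
    have h3 := hwe (e.symm ⟨y, hy⟩)
    rw [Equiv.apply_symm_apply] at h3
    rcases h3 with h3 | h3
    · rw [h3]
      exact h1 _ h2
    · rw [h3]
      exact (h1 _ h2).neg
  have hc'0 : c' = 0 := by
    have : Fact (Nat.Prime 2) := ⟨Nat.prime_two⟩
    refine descent0 (P := P) (bar := bar) 2 w' z₀ ?_ c' ?_ ?_ ?_
    · intro b hb1 hb2 hb3
      -- the sum of the squares over a set of representatives
      have hS : ∀ σ ∈ P, ∑ y ∈ O, b (σ⁻¹ y) ^ 2 = ∑ y ∈ O, b y ^ 2 := by
        intro σ hσ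
        have h3 := sum_tr hbar hO (fun y => (b (σ⁻¹ y) : ℚ) ^ 2) (fun y => by
          rw [hcomm _ (inv_mem hσ), hb1]
          push_cast
          ring)
        have h4 := sum_tr hbar hO (fun y => (b y : ℚ) ^ 2) (fun y => by
          rw [hb1]
          push_cast
          ring)
        rw [Equiv.sum_comp σ⁻¹ (fun y => (b y : ℚ) ^ 2), h4] at h3
        have h5 : ∑ y ∈ O, (b y : ℚ) ^ 2 = ∑ y ∈ O, (b (σ⁻¹ y) : ℚ) ^ 2 := by linarith
        exact_mod_cast h5.symm
      have hsq : ∀ x, Even (∑ y ∈ O, b y ^ 2 - b x ^ 2) := by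
        intro x
        obtain ⟨σ, hσ, hσx⟩ := htr x (e j₀)
        have h3 : σ⁻¹ (e j₀ : X) = x := by
          rw [← hσx]
          exact σ.symm_apply_apply x
        have h2 := rel_tr (P := P) hbar hcomm (w := fun x => (w' x : ℚ)) (c := fun x => (b x : ℚ))
          (fun x => by
            rw [hw'odd]
            push_cast
            rfl) (fun x => by
            rw [hb1]
            push_cast
            rfl) (fun σ hσ => by exact_mod_cast hb2 σ hσ) hO hσ
        have h4 : ∑ y ∈ O, b (σ⁻¹ y) * w' y = 0 := by exact_mod_cast h2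
        rw [← hS σ hσ, ← Finset.add_sum_erase O _ (e j₀).2, h3, add_sub_cancel_left]
        rw [← Finset.add_sum_erase O _ (e j₀).2, h3] at h4
        have h5 : Even (∑ y ∈ O.erase (e j₀), b (σ⁻¹ y) * w' y) := by
          have h6 : ∑ y ∈ O.erase (e j₀), b (σ⁻¹ y) * w' y = - (b x * w' (e j₀)) := by linarith
          rw [h6]
          exact (hx0.mul_left _).neg
        have h6 : Even (∑ y ∈ O.erase (e j₀), (b (σ⁻¹ y) ^ 2 - b (σ⁻¹ y) * w' y)) := by
          refine Finset.even_sum _ fun y hy => ?_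
          obtain ⟨a, ha⟩ := hx1 y (Finset.mem_of_mem_erase hy) (Finset.ne_of_mem_erase hy)
          have h7 : b (σ⁻¹ y) ^ 2 - b (σ⁻¹ y) * w' y =
              b (σ⁻¹ y) * (b (σ⁻¹ y) - 1) - 2 * (a * b (σ⁻¹ y)) := by
            rw [ha]
            ring
          rw [h7]
          exact (Int.even_mul_pred_self _).sub (even_two_mul _)
        rw [Finset.sum_sub_distrib] at h6
        have h7 := h6.add h5
        rwa [sub_add_cancel] at h7
      intro x
      have h3 := (hsq z₀).sub (hsq x)
      rw [sub_sub_sub_cancel_left, hb3] at h3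
      have h4 : Even (b x ^ 2) := by
        have h5 : b x ^ 2 - 0 ^ 2 = b x ^ 2 := by ring
        rw [← h5]
        exact h3
      have h5 := (Int.even_pow' two_ne_zero).1 h4
      exact_mod_cast even_iff_two_dvd.1 h5
    · intro x
      have h1 : (c' (bar x) : ℚ) = (-c' x : ℤ) := by
        rw [hc', hc.1]
        push_cast
        rw [hc']
        ring
      exact_mod_cast h1
    · intro σ hσ
      have h1 : t * ((∑ x, c' x * w' (σ x) : ℤ) : ℚ) = 0 := by
        push_cast
        rw [Finset.mul_sum]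
        have h2 : ∀ x, t * ((c' x : ℚ) * w' (σ x)) = N * (c x * w (σ x)) := by
          intro x
          rw [hc', hw']
          ring
        rw [Finset.sum_congr rfl fun x _ => h2 x, ← Finset.mul_sum, hc.2 σ hσ, mul_zero]
      exact_mod_cast (mul_eq_zero.1 h1).resolve_left ht
    · have h1 := hc' z₀
      rw [hz₀, mul_zero] at h1
      exact_mod_cast h1
  funext x
  have h1 := hc' x
  rw [hc'0] at h1
  simp only [Pi.zero_apply, Int.cast_zero] at h1
  exact (mul_eq_zero.1 h1.symm).resolve_left hN'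

end Pool.Agent.H21.HS
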