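import Pool.Agent.H21.HS.Few

/-!
# A number of pairs that is the square of an odd prime
-/

set_option autoImplicit false
set_option linter.unusedSectionVars false

namespace Pool.Agent.H21.HS

open Module Pool.Agent.H21.TC Pool.Agent.H21.NP Pool.Agent.H21.NQ

/-- A function all of whose nontrivial Fourier coefficients vanish is constant. -/
theorem const_of_char {B : Type*} [AddCommGroup B] [Fintype B] (c : B → ℚ)
    (h : ∀ χ : AddChar B ℂ, (∃ b, χ b ≠ 1) → ∑ b, (c b : ℂ) * χ (-b) = 0) (a : B) :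
    c a = c 0 := by
  classical
  have key : ∀ a : B, ∑ χ : AddChar B ℂ, (∑ b, (c b : ℂ) * χ (-b)) * χ a =
      (Fintype.card B : ℂ) * c a := by
    intro a
    have h2 : ∀ χ : AddChar B ℂ, (∑ b, (c b : ℂ) * χ (-b)) * χ a = ∑ b, (c b : ℂ) * χ (a - b) := by
      intro χ
      rw [Finset.sum_mul]
      refine Finset.sum_congr rfl fun b _ => ?_
      rw [mul_assoc, ← AddChar.map_add_eq_mul]
      congr 2
      abel
    rw [Finset.sum_congr rfl fun χ _ => h2 χ, Finset.sum_comm]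
    have h3 : ∀ b : B, ∑ χ : AddChar B ℂ, (c b : ℂ) * χ (a - b) =
        if b = a then (Fintype.card B : ℂ) * c b else 0 := by
      intro b
      rw [← Finset.mul_sum, AddChar.sum_apply_eq_ite]
      by_cases h : b = a
      · rw [if_pos h, if_pos (by rw [h, sub_self]), mul_comm]
      · rw [if_neg h, if_neg (fun h' => h (sub_eq_zero.1 h').symm), mul_zero]
    rw [Finset.sum_congr rfl fun b _ => h3 b, Finset.sum_ite_eq', if_pos (Finset.mem_univ _)]
  have h1 : ∑ χ : AddChar B ℂ, (∑ b, (c b : ℂ) * χ (-b)) * χ a =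
      ∑ χ : AddChar B ℂ, (∑ b, (c b : ℂ) * χ (-b)) * χ 0 := by
    refine Finset.sum_congr rfl fun χ _ => ?_
    by_cases hχ : ∃ b, χ b ≠ 1
    · rw [h χ hχ, zero_mul, zero_mul]
    · push Not at hχ
      rw [hχ, hχ]
  rw [key, key] at h1
  have hcard : (Fintype.card B : ℂ) ≠ 0 := by
    exact_mod_cast Fintype.card_ne_zero
  exact_mod_cast mul_left_cancel₀ hcard h1

variable {X : Type} [Fintype X]
variable {P : Subgroup (Equiv.Perm X)} {bar : X → X} {w : X → ℚ}

/-- The relations in the case of `ℓ ^ 2` pairs. -/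
theorem sq_struct (hbar : ∀ x, bar (bar x) = x) (hb : ∀ x, bar x ≠ x)
    (hcomm : ∀ σ ∈ P, ∀ x, σ (bar x) = bar (σ x)) (htr : ∀ x y : X, ∃ σ ∈ P, σ x = y)
    (hw : ∀ x, w (bar x) = - w x) {ℓ : ℕ} [hℓ : Fact ℓ.Prime] (hℓ2 : ℓ ≠ 2)
    (hcard : Fintype.card X = 2 * ℓ ^ 2)
    (hnc : ∀ x y, (∀ σ ∈ P, w (σ x) = w (σ y)) → x = y) {c : X → ℚ} (hc : c ∈ RelS P bar w)
    {x₀ : X} (hx₀ : c x₀ = 0)
    (hc0 : c ≠ 0) : ∃ (O : Finset X) (_ : IsTr bar O) (E : Fin ℓ × Fin ℓ ≃ O) (u : ℚ),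
      ∀ i, ∑ j, w (E (i, j)) = u := by
  classical
  obtain ⟨B, _, _, f, hB, hf, hact⟩ := exists_regular P htr hℓ2 hcard
  have hℓ0 : 0 < ℓ := hℓ.out.pos
  have hodd : Odd (ℓ ^ 2) := (hℓ.out.odd_of_ne_two hℓ2).pow
  -- the orbit is a set of representatives
  have hfbar : ∀ a b, bar (f a) ≠ f b := by
    intro a b hab
    obtain ⟨σ, hσ, h1⟩ := hact (b - a)
    have h2 : σ (f a) = bar (f a) := by rw [h1, sub_add_cancel, hab]
    have h3 : σ (f b) = f a := by rw [← hab, hcomm σ hσ, h2, hbar]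
    have h4 : b - a + b = a := hf ((h1 b).symm.trans h3)
    have h5 : (2 : ℕ) • (b - a) = 0 := by
      rw [two_nsmul]
      have h6 : b - a + b - a = 0 := by rw [h4, sub_self]
      rw [← h6]
      abel
    have h6 : (ℓ ^ 2) • (b - a) = 0 := by rw [← hB]; exact card_nsmul_eq_zero
    obtain ⟨m, hm⟩ := hodd
    have h7 : b - a = 0 := by
      rw [hm, add_nsmul, mul_nsmul, h5, nsmul_zero, one_nsmul, zero_add] at h6
      exact h6
    have h8 : b = a := sub_eq_zero.1 h7
    rw [h8] at hab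
    exact hb _ hab
  let O : Finset X := Finset.univ.image f
  have hOc : O.card = ℓ ^ 2 := by
    rw [Finset.card_image_of_injective _ hf, Finset.card_univ, hB]
  have hO : IsTr bar O := by
    have h1 : ∀ x ∈ O, bar x ∉ O := by
      intro x hx hx'
      obtain ⟨i, -, rfl⟩ := Finset.mem_image.1 hx
      obtain ⟨j, -, hj⟩ := Finset.mem_image.1 hx'
      exact hfbar i j hj.symm
    have hbinj : Function.Injective bar := fun a b h => by rw [← hbar a, h, hbar]
    have h2 : Disjoint O (O.image bar) := by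
      rw [Finset.disjoint_left]
      intro x hx hx'
      obtain ⟨z, hz, rfl⟩ := Finset.mem_image.1 hx'
      exact h1 z hz hx
    have h3 : O ∪ O.image bar = Finset.univ := by
      rw [← Finset.card_eq_iff_eq_univ, Finset.card_union_of_disjoint h2,
        Finset.card_image_of_injective _ hbinj, hOc, hcard]
      ring
    intro x
    refine ⟨h1 x, fun hx => ?_⟩
    have h4 : x ∈ O ∪ O.image bar := by rw [h3]; exact Finset.mem_univ _
    rcases Finset.mem_union.1 h4 with h5 | h5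
    · exact h5
    · obtain ⟨z, hz, rfl⟩ := Finset.mem_image.1 h5
      rw [hbar] at hx
      exact absurd hz hx
  have hsumO : ∀ F : X → ℚ, ∑ x ∈ O, F x = ∑ i, F (f i) := fun F =>
    Finset.sum_image fun a _ b _ h => hf h
  -- the correlations
  have hcorr : ∀ σ ∈ P, ∀ a : B, ∑ b, c (f b) * w (σ (f (a + b))) = 0 := by
    intro σ hσ a
    obtain ⟨τ, hτ, hτa⟩ := hact a
    have h1 := hc.2 (σ * τ) (mul_mem hσ hτ)
    rw [sum_tr hbar hO (fun x => c x * w ((σ * τ) x)) (fun x => by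
      rw [hc.1, Equiv.Perm.mul_apply, hcomm τ hτ, hcomm σ hσ, hw]
      rw [Equiv.Perm.mul_apply]
      ring), hsumO] at h1
    have h2 : ∑ j, c (f j) * w ((σ * τ) (f j)) = 0 := by linarith
    rw [← h2]
    refine Finset.sum_congr rfl fun j _ => ?_
    rw [Equiv.Perm.mul_apply, hτa]
  have hcf : ∃ χ : AddChar B ℂ, (∃ b, χ b ≠ 1) ∧ ∑ b, (c (f b) : ℂ) * χ (-b) ≠ 0 := by
    by_contra hno
    push Not at hno
    have hconst := const_of_char (fun b => c (f b)) (fun χ hχ => by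
      obtain ⟨b, hb⟩ := hχ
      exact hno χ ⟨b, hb⟩)
    apply hc0
    have hz : c (f 0) = 0 := by
      by_cases hx : x₀ ∈ O
      · obtain ⟨i, -, hi⟩ := Finset.mem_image.1 hx
        rw [← hconst i]
        change c (f i) = 0
        rw [hi, hx₀]
      · have h1 : bar x₀ ∈ O := by
          rw [hO, hbar]
          exact hx
        obtain ⟨i, -, hi⟩ := Finset.mem_image.1 h1
        rw [← hconst i]
        change c (f i) = 0
        rw [hi, hc.1, hx₀, neg_zero]
    funext x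
    by_cases hx : x ∈ O
    · obtain ⟨i, -, rfl⟩ := Finset.mem_image.1 hx
      exact (hconst i).trans hz
    · have h1 : bar x ∈ O := by
        rw [hO, hbar]
        exact hx
      obtain ⟨i, -, hi⟩ := Finset.mem_image.1 h1
      have h2 : c (bar x) = 0 := by
        rw [← hi]
        exact (hconst i).trans hz
      rw [hc.1] at h2
      exact neg_eq_zero.1 h2
  obtain ⟨χ, hχ1, hχ⟩ := hcf
  have hchar : ∀ σ ∈ P, ∑ d, (w (σ (f d)) : ℂ) * χ d = 0 := fun σ hσ =>
    char_corr (fun b => c (f b)) (fun b => w (σ (f b))) χ hχ (hcorr σ hσ)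
  refine ⟨O, hO, ?_⟩
  rcases char_cases hB χ with h1 | ⟨κ, hκ, h1⟩ | ⟨h, hh, h1⟩
  · exfalso
    obtain ⟨b, hb⟩ := hχ1
    exact hb (h1 b)
  · obtain ⟨u, hu⟩ := h1 (fun b => w (f b)) (hchar 1 (one_mem _))
    have e1 : ∀ i : Fin ℓ, Nonempty (Fin ℓ ≃ {b // κ b = i}) := fun i => by
      rw [← Fintype.card_eq, hκ i, Fintype.card_fin]
    let e2 : ∀ i : Fin ℓ, Fin ℓ ≃ {b // κ b = i} := fun i => (e1 i).some
    let e3 : Fin ℓ × Fin ℓ ≃ B := (Equiv.sigmaEquivProd (Fin ℓ) (Fin ℓ)).symm.trans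
      ((Equiv.sigmaCongrRight e2).trans (Equiv.sigmaFiberEquiv κ))
    have e3a : ∀ i j, e3 (i, j) = (e2 i j : B) := fun i j => rfl
    let e4 : B ≃ O := Equiv.ofBijective (fun b => (⟨f b, Finset.mem_image_of_mem _
      (Finset.mem_univ b)⟩ : O)) ⟨fun a b h => hf (congrArg Subtype.val h), fun x => by
        obtain ⟨b, -, hb⟩ := Finset.mem_image.1 x.2
        exact ⟨b, Subtype.ext hb⟩⟩
    have e4a : ∀ b, ((e4 b : O) : X) = f b := fun b => rfl
    refine ⟨e3.trans e4, u, fun i => ?_⟩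
    rw [← hu i, ← Equiv.sum_comp (e2 i)]
    refine Finset.sum_congr rfl fun j _ => ?_
    rw [Equiv.trans_apply, e4a, e3a]
  · exfalso
    apply hh
    have h2 : f (0 + h) = f 0 := by
      apply hnc
      intro σ hσ
      exact h1 (fun b => w (σ (f b))) (hchar σ hσ) 0
    have h3 := hf h2
    rw [zero_add] at h3
    exact h3

/-- The square of an odd prime. -/
theorem few_sq {g : ℕ} (ℓ : ℕ) [hℓ : Fact ℓ.Prime] (hℓ2 : ℓ ≠ 2) (hg : g = ℓ ^ 2)
    (s : Fin g → ℚ) (h2 : ¬ EqualSums ℓ ℓ s) : FewRel (fun j => 1 - 2 * s j) := by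
  classical
  intro X _ P bar w hbar hb hcomm htr hw hmul hcard hnc c hc x₀ hx₀
  by_contra hc0
  obtain ⟨O, hO, E, u, hu⟩ := sq_struct hbar hb hcomm htr hw hℓ2 (by rw [hcard, hg]) hnc hc hx₀ hc0
  obtain ⟨b, hb'⟩ := exists_enum hbar hw (fun j => 1 - 2 * s j) hmul hO
  let ε : Fin g → ℤˣ := fun i => if w (b i) = 1 - 2 * s i then 1 else -1
  have hε : ∀ i, ((ε i : ℤ) : ℚ) * (1 - 2 * s i) = w (b i) := by
    intro i
    simp only [ε]
    by_cases h4 : w (b i) = 1 - 2 * s i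
    · simp only [if_pos h4]
      rw [h4]
      simp
    · simp only [if_neg h4]
      rw [(hb' i).resolve_left h4]
      simp
  apply h2
  refine ⟨E.trans b.symm, ε, u, fun i => ?_⟩
  rw [← hu i]
  refine Finset.sum_congr rfl fun j _ => ?_
  rw [hε, Equiv.trans_apply, Equiv.apply_symm_apply]

end Pool.Agent.H21.HS
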