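import Pool.Agent.H21.HS.Defs
import Pool.Agent.H21.HS.Even
import Pool.Agent.H21.HS.Square

/-!
# The conditions on the slopes
-/

set_option autoImplicit false

namespace Pool.Agent.H21.HS

open Pool.Agent.H21.NQ

theorem few_of_condition {g : ℕ} {s : Fin g → ℚ} (h : SlopeCondition s) :
    FewRel (fun j => 1 - 2 * s j) := by
  rcases h with ⟨j₀, h | ⟨h, h'⟩⟩ | ⟨t, n, j₀, ht, hm, h0, h1⟩ | ⟨ℓ, hℓ, h⟩
  · exact few_of_noRel (noRel_of_dominant _ j₀ h)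
  · exact few_of_dominant _ j₀ h h'.le
  · exact few_of_one_even _ t ht n hm j₀ h0 h1
  · have : Fact ℓ.Prime := ⟨hℓ⟩
    rcases h with ⟨j₀, h0, h⟩ | ⟨⟨k, hk⟩, t, n, ht, hm, hn⟩ | ⟨h2, hg, h⟩
    · exact few_of_noRel (noRel_of_padic ℓ _ j₀ h0 h)
    · exact few_of_noRel (noRel_of_mod ℓ hk _ t ht n hm hn)
    · exact few_sq ℓ h2 hg s h

end Pool.Agent.H21.HS
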