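import Pool.Agent.H21.NQ.EqSum

/-!
# Conditions on the slopes: definitions
-/

set_option autoImplicit false

namespace Pool.Agent.H21.HS

open Pool.Agent.H21.NQ

variable {g : ℕ}

/-- One of the numbers `m j` dominates: its absolute value is larger than the sum of the absolute
values of the other ones, or it is equal to this sum and none of the `m j` is zero. -/
def OneDominates (m : Fin g → ℚ) : Prop :=
  ∃ j₀, ∑ j ∈ Finset.univ.erase j₀, |m j| < |m j₀| ∨
    ((∀ j, m j ≠ 0) ∧ ∑ j ∈ Finset.univ.erase j₀, |m j| = |m j₀|)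

/-- One of the numbers `m j` dominates for a prime number `ℓ`: its `ℓ`-adic absolute value is larger
than the absolute values of all the other ones. -/
def OneDominatesAt (ℓ : ℕ) (m : Fin g → ℚ) : Prop :=
  ∃ j₀, m j₀ ≠ 0 ∧ ∀ j, j ≠ j₀ → padicNorm ℓ (m j) < padicNorm ℓ (m j₀)

/-- The numbers `m j` are proportional to integers exactly one of which is even. -/
def OneEven (m : Fin g → ℚ) : Prop :=
  ∃ (t : ℚ) (n : Fin g → ℤ) (j₀ : Fin g), t ≠ 0 ∧ (∀ j, m j = t * n j) ∧ Even (n j₀) ∧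
    ∀ j, j ≠ j₀ → Odd (n j)

/-- The number of the `m j` is a power of `ℓ`, and the `m j` are proportional to integers such that no
signed sum of all these integers is divisible by `ℓ`. -/
def NoSumDivisible (ℓ : ℕ) (m : Fin g → ℚ) : Prop :=
  (∃ k, g = ℓ ^ k) ∧ ∃ (t : ℚ) (n : Fin g → ℤ), t ≠ 0 ∧ (∀ j, m j = t * n j) ∧
    ∀ ε : Fin g → ℤˣ, ¬ (ℓ : ℤ) ∣ ∑ j, (ε j : ℤ) * n j

/-- The number of the pairs of slopes is the square of the odd prime number `ℓ`, and the differences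
`1 - 2 s j`, with any signs, cannot be arranged in `ℓ` rows of `ℓ` numbers with equal sums. -/
def NoEqualSums (ℓ : ℕ) (s : Fin g → ℚ) : Prop := ℓ ≠ 2 ∧ g = ℓ ^ 2 ∧ ¬ EqualSums ℓ ℓ s

/-- The condition on the slopes `s j`, `1 - s j`. -/
def SlopeCondition (s : Fin g → ℚ) : Prop :=
  OneDominates (fun j => 1 - 2 * s j) ∨ OneEven (fun j => 1 - 2 * s j) ∨
    ∃ ℓ : ℕ, ℓ.Prime ∧ (OneDominatesAt ℓ (fun j => 1 - 2 * s j) ∨
      NoSumDivisible ℓ (fun j => 1 - 2 * s j) ∨ NoEqualSums ℓ s)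

end Pool.Agent.H21.HS
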