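import Pool.Agent.H21.NQ.One

/-!
# Slopes with at most one relation
-/

set_option autoImplicit false
set_option linter.unusedSectionVars false

namespace Pool.Agent.H21.HS

open Module Pool.Agent.H21.TC Pool.Agent.H21.NP Pool.Agent.H21.NQ

/-- A relation with a coefficient zero vanishes, for all transitive groups of permutations of the
`2 g` points and for all functions with the given values without coincidences. -/
def FewRel {g : ℕ} (m : Fin g → ℚ) : Prop :=
  ∀ (X : Type) [Fintype X] (P : Subgroup (Equiv.Perm X)) (bar : X → X) (w : X → ℚ),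
    (∀ x, bar (bar x) = x) → (∀ x, bar x ≠ x) → (∀ σ ∈ P, ∀ x, σ (bar x) = bar (σ x)) →
    (∀ x y : X, ∃ σ ∈ P, σ x = y) → (∀ x, w (bar x) = - w x) →
    (Finset.univ : Finset X).val.map (fun x => |w x|) =
      2 • (Finset.univ : Finset (Fin g)).val.map (fun j => |m j|) →
    Fintype.card X = 2 * g → (∀ x y, (∀ σ ∈ P, w (σ x) = w (σ y)) → x = y) →
    ∀ c ∈ RelS P bar w, ∀ x₀, c x₀ = 0 → c = 0

theorem few_of_noRel {g : ℕ} {m : Fin g → ℚ} (h : NoRel m) : FewRel m :=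
  fun X _ P bar w h1 h2 h3 h4 h5 h6 h7 h8 c hc _ _ => h X P bar w h1 h2 h3 h4 h5 h6 h7 h8 c hc

section

variable {X : Type} [Fintype X] {P : Subgroup (Equiv.Perm X)} {bar : X → X} {w : X → ℚ}

/-- The largest coefficient. -/
theorem dominant_aux (hbar : ∀ x, bar (bar x) = x) (hb : ∀ x, bar x ≠ x)
    (hcomm : ∀ σ ∈ P, ∀ x, σ (bar x) = bar (σ x)) (htr : ∀ x y : X, ∃ σ ∈ P, σ x = y)
    (hw : ∀ x, w (bar x) = - w x) {g : ℕ} (m : Fin g → ℚ) (j₀ : Fin g)
    (hmul : (Finset.univ : Finset X).val.map (fun x => |w x|) =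
      2 • (Finset.univ : Finset (Fin g)).val.map (fun j => |m j|)) {c : X → ℚ}
    (hc : c ∈ RelS P bar w) (x : X) (hx : ∀ y, |c y| ≤ |c x|) :
    |c x| * |m j₀| ≤ |c x| * ∑ j ∈ Finset.univ.erase j₀, |m j| ∧
      (|c x| * |m j₀| = |c x| * ∑ j ∈ Finset.univ.erase j₀, |m j| → (∀ j, m j ≠ 0) →
        ∀ z, |c z| = |c x|) := by
  classical
  obtain ⟨O, hO⟩ := exists_tr hbar hb
  obtain ⟨e, he⟩ := exists_enum hbar hw m hmul hO
  have hwe : ∀ j, |w (e j)| = |m j| := by
    intro j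
    rcases he j with h | h
    · rw [h]
    · rw [h, abs_neg]
  obtain ⟨σ, hσ, hσx⟩ := htr x (e j₀)
  have h1 := rel_tr hbar hcomm hw hc.1 hc.2 hO hσ
  have h3 : σ⁻¹ (e j₀ : X) = x := by
    rw [← hσx]
    exact σ.symm_apply_apply x
  rw [← Finset.sum_coe_sort O (fun y => c (σ⁻¹ y) * w y), ← Equiv.sum_comp e,
    ← Finset.add_sum_erase _ _ (Finset.mem_univ j₀), h3] at h1
  have h4 : |c x| * |m j₀| = |∑ j ∈ Finset.univ.erase j₀, c (σ⁻¹ (e j)) * w (e j)| := by
    have h5 : ∑ j ∈ Finset.univ.erase j₀, c (σ⁻¹ (e j)) * w (e j) = -(c x * w (e j₀)) := by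
      linarith
    rw [h5, abs_neg, abs_mul, hwe]
  have h5 : |∑ j ∈ Finset.univ.erase j₀, c (σ⁻¹ (e j)) * w (e j)| ≤
      ∑ j ∈ Finset.univ.erase j₀, |c (σ⁻¹ (e j))| * |m j| := by
    refine (Finset.abs_sum_le_sum_abs _ _).trans (le_of_eq ?_)
    refine Finset.sum_congr rfl fun j _ => ?_
    rw [abs_mul, hwe]
  have h6 : ∑ j ∈ Finset.univ.erase j₀, |c (σ⁻¹ (e j))| * |m j| ≤
      |c x| * ∑ j ∈ Finset.univ.erase j₀, |m j| := by
    rw [Finset.mul_sum]
    exact Finset.sum_le_sum fun j _ => mul_le_mul_of_nonneg_right (hx _) (abs_nonneg _)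
  refine ⟨by rw [h4]; exact h5.trans h6, fun heq hne z => ?_⟩
  have h7 : ∑ j ∈ Finset.univ.erase j₀, (|c x| * |m j| - |c (σ⁻¹ (e j))| * |m j|) = 0 := by
    rw [Finset.sum_sub_distrib, ← Finset.mul_sum]
    have h8 := h4 ▸ h5
    rw [← heq]
    linarith
  have h8 : ∀ j ∈ Finset.univ.erase j₀, |c x| * |m j| - |c (σ⁻¹ (e j))| * |m j| = 0 := by
    refine (Finset.sum_eq_zero_iff_of_nonneg fun j _ => ?_).1 h7
    exact sub_nonneg.2 (mul_le_mul_of_nonneg_right (hx _) (abs_nonneg _))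
  have h9 : ∀ j, |c (σ⁻¹ (e j))| = |c x| := by
    intro j
    by_cases hj : j = j₀
    · subst hj
      rw [h3]
    · have h10 := h8 j (Finset.mem_erase.2 ⟨hj, Finset.mem_univ _⟩)
      have h11 : |m j| ≠ 0 := abs_ne_zero.2 (hne j)
      have h12 : |c x| * |m j| = |c (σ⁻¹ (e j))| * |m j| := sub_eq_zero.1 h10
      exact (mul_right_cancel₀ h11 h12).symm
  have h10 : ∀ y ∈ O, |c (σ⁻¹ y)| = |c x| := by
    intro y hy
    have h11 := h9 (e.symm ⟨y, hy⟩)
    rwa [Equiv.apply_symm_apply] at h11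
  have h11 : ∀ y, |c (σ⁻¹ y)| = |c x| := by
    intro y
    by_cases hy : y ∈ O
    · exact h10 y hy
    · have h12 : bar y ∈ O := by
        rw [hO, hbar]
        exact hy
      have h13 := h10 _ h12
      rwa [hcomm _ (inv_mem hσ), hc.1, abs_neg] at h13
  have h12 := h11 (σ z)
  have h13 : σ⁻¹ (σ z) = z := σ.symm_apply_apply z
  rwa [h13] at h12

end

theorem exists_largest {X : Type} [Fintype X] [Nonempty X] (c : X → ℚ) :
    ∃ x, ∀ y, |c y| ≤ |c x| := Finite.exists_max fun x => |c x|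

/-- One difference is larger than the sum of the other ones. -/
theorem noRel_of_dominant {g : ℕ} (m : Fin g → ℚ) (j₀ : Fin g)
    (h : ∑ j ∈ Finset.univ.erase j₀, |m j| < |m j₀|) : NoRel m := by
  classical
  intro X _ P bar w hbar hb hcomm htr hw hmul hcard _ c hc
  by_cases hX : Nonempty X
  · obtain ⟨x, hx⟩ := exists_largest c
    have h1 := (dominant_aux hbar hb hcomm htr hw m j₀ hmul hc x hx).1
    have h2 : |c x| = 0 := by
      by_contra hne
      have hpos : 0 < |c x| := lt_of_le_of_ne (abs_nonneg _) (Ne.symm hne)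
      have h3 := mul_lt_mul_of_pos_left h hpos
      linarith
    funext y
    have h3 := hx y
    rw [h2] at h3
    exact abs_eq_zero.1 (le_antisymm h3 (abs_nonneg _))
  · funext x
    exact (hX ⟨x⟩).elim

/-- One difference is equal to the sum of the other ones, and no difference is zero. -/
theorem few_of_dominant {g : ℕ} (m : Fin g → ℚ) (j₀ : Fin g) (hne : ∀ j, m j ≠ 0)
    (h : ∑ j ∈ Finset.univ.erase j₀, |m j| ≤ |m j₀|) : FewRel m := by
  classical
  intro X _ P bar w hbar hb hcomm htr hw hmul hcard _ c hc x₀ hx₀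
  have hX : Nonempty X := ⟨x₀⟩
  obtain ⟨x, hx⟩ := exists_largest c
  have h1 := dominant_aux hbar hb hcomm htr hw m j₀ hmul hc x hx
  have h2 : |c x| = 0 := by
    have h3 := mul_le_mul_of_nonneg_left h (abs_nonneg (c x))
    have h4 := h1.2 (le_antisymm h1.1 h3) hne x₀
    rw [hx₀, abs_zero] at h4
    exact h4.symm
  funext y
  have h3 := hx y
  rw [h2] at h3
  exact abs_eq_zero.1 (le_antisymm h3 (abs_nonneg _))

/-- One difference is larger than the other ones for the absolute value of a prime number. -/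
theorem noRel_of_padic {g : ℕ} (ℓ : ℕ) [Fact ℓ.Prime] (m : Fin g → ℚ) (j₀ : Fin g)
    (h0 : m j₀ ≠ 0) (h : ∀ j, j ≠ j₀ → padicNorm ℓ (m j) < padicNorm ℓ (m j₀)) : NoRel m := by
  classical
  intro X _ P bar w hbar hb hcomm htr hw hmul hcard _ c hc
  by_cases hX : Nonempty X
  swap
  · funext x
    exact (hX ⟨x⟩).elim
  obtain ⟨x, hx⟩ := Finite.exists_max fun x => padicNorm ℓ (c x)
  by_contra hc0
  have hcx : 0 < padicNorm ℓ (c x) := by
    obtain ⟨y, hy⟩ : ∃ y, c y ≠ 0 := by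
      by_contra hno
      push Not at hno
      exact hc0 (funext hno)
    exact (lt_of_le_of_ne (padicNorm.nonneg _) (Ne.symm (padicNorm.nonzero hy))).trans_le (hx y)
  obtain ⟨O, hO⟩ := exists_tr hbar hb
  obtain ⟨e, he⟩ := exists_enum hbar hw m hmul hO
  have hwe : ∀ j, padicNorm ℓ (w (e j)) = padicNorm ℓ (m j) := by
    intro j
    rcases he j with h | h
    · rw [h]
    · rw [h, padicNorm.neg]
  obtain ⟨σ, hσ, hσx⟩ := htr x (e j₀)
  have h1 := rel_tr hbar hcomm hw hc.1 hc.2 hO hσ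
  have h3 : σ⁻¹ (e j₀ : X) = x := by
    rw [← hσx]
    exact σ.symm_apply_apply x
  rw [← Finset.sum_coe_sort O (fun y => c (σ⁻¹ y) * w y), ← Equiv.sum_comp e,
    ← Finset.add_sum_erase _ _ (Finset.mem_univ j₀), h3] at h1
  have h4 : padicNorm ℓ (∑ j ∈ Finset.univ.erase j₀, c (σ⁻¹ (e j)) * w (e j)) =
      padicNorm ℓ (c x) * padicNorm ℓ (m j₀) := by
    have h5 : ∑ j ∈ Finset.univ.erase j₀, c (σ⁻¹ (e j)) * w (e j) = -(c x * w (e j₀)) := by
      linarith
    rw [h5, padicNorm.neg, padicNorm.mul, hwe]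
  have hm0 : 0 < padicNorm ℓ (m j₀) :=
    lt_of_le_of_ne (padicNorm.nonneg _) (Ne.symm (padicNorm.nonzero h0))
  have h5 : padicNorm ℓ (∑ j ∈ Finset.univ.erase j₀, c (σ⁻¹ (e j)) * w (e j)) <
      padicNorm ℓ (c x) * padicNorm ℓ (m j₀) := by
    refine padicNorm.sum_lt' (fun j hj => ?_) (mul_pos hcx hm0)
    rw [padicNorm.mul, hwe]
    exact lt_of_le_of_lt (mul_le_mul_of_nonneg_right (hx _) (padicNorm.nonneg _))
      (mul_lt_mul_of_pos_left (h j (Finset.ne_of_mem_erase hj)) hcx)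
  rw [h4] at h5
  exact lt_irrefl _ h5

end Pool.Agent.H21.HS
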